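import Pool.Agent.L7h57.RV.Stm2

/-!
# Project RV (helper57), part DEG33: the bracket equation in degree three is open in dimension three
-/

set_option autoImplicit false

namespace Pool.Agent.L7h16.RV

open MvPolynomial Pool.Helper89.Rev Pool.Agent.L7h57.RV

section lin

variable {n : ℕ}

theorem br_apply (C D : VF n) (i : Fin n) :
    br C D i = ∑ j, (pderiv j (C i) * D j - pderiv j (D i) * C j) := rfl

theorem br_add_left (C C' D : VF n) : br (C + C') D = br C D + br C' D := by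
  funext i
  rw [Pi.add_apply, br_apply, br_apply, br_apply, ← Finset.sum_add_distrib]
  refine Finset.sum_congr rfl fun j _ => ?_
  simp only [Pi.add_apply, map_add]
  ring

theorem br_add_right (C D D' : VF n) : br C (D + D') = br C D + br C D' := by
  funext i
  rw [Pi.add_apply, br_apply, br_apply, br_apply, ← Finset.sum_add_distrib]
  refine Finset.sum_congr rfl fun j _ => ?_
  simp only [Pi.add_apply, map_add]
  ring

theorem br_smul_left (r : ℂ) (C D : VF n) : br (r • C) D = r • br C D := by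
  funext i
  rw [Pi.smul_apply, br_apply, br_apply, Finset.smul_sum]
  refine Finset.sum_congr rfl fun j _ => ?_
  have h : pderiv j ((r • C) i) = MvPolynomial.C r * pderiv j (C i) := by
    rw [Pi.smul_apply, (pderiv j).map_smul, smul_eq_C_mul]
  rw [h]
  simp only [Pi.smul_apply, smul_eq_C_mul]
  ring

theorem br_smul_right (r : ℂ) (C D : VF n) : br C (r • D) = r • br C D := by
  funext i
  rw [Pi.smul_apply, br_apply, br_apply, Finset.smul_sum]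
  refine Finset.sum_congr rfl fun j _ => ?_
  have h : pderiv j ((r • D) i) = MvPolynomial.C r * pderiv j (D i) := by
    rw [Pi.smul_apply, (pderiv j).map_smul, smul_eq_C_mul]
  rw [h]
  simp only [Pi.smul_apply, smul_eq_C_mul]
  ring

/-- the bracket as a bilinear map -/
noncomputable def brB : VF n →ₗ[ℂ] VF n →ₗ[ℂ] VF n :=
  LinearMap.mk₂ ℂ br br_add_left br_smul_left br_add_right br_smul_right

theorem brB_apply (C D : VF n) : brB C D = br C D := rfl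

theorem br_hom {A D : VF n} (hA : HomT 2 A) (hD : HomT 2 D) : HomT 3 (br A D) := by
  intro i
  unfold br
  refine IsHomogeneous.sum _ _ _ fun j _ => ?_
  have h1 : (pderiv j (A i) * D j).IsHomogeneous 3 := by
    have := ((hA i).pderiv (i := j)).mul (hD j)
    rwa [show 2 - 1 + 2 = 3 by omega] at this
  have h2 : (pderiv j (D i) * A j).IsHomogeneous 3 := by
    have := ((hD i).pderiv (i := j)).mul (hA j)
    rwa [show 2 - 1 + 2 = 3 by omega] at this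
  exact h1.sub h2

theorem fin_HomV (d : ℕ) : FiniteDimensional ℂ (HomV n d) := by
  have h : (HomV n d).FG := Submodule.fg_pi fun _ => homogeneousSubmodule_fg (Fin n) ℂ d
  exact Module.Finite.iff_fg.2 h

end lin

/-! ### the norm -/

theorem nr3_eq {p : MvPolynomial (Fin 3) ℂ} {T : Finset (Fin 3 →₀ ℕ)} (hT : p.support ⊆ T) :
    nr3 p = ∑ m ∈ T, ‖coeff m p‖ := by
  unfold nr3
  refine Finset.sum_subset hT fun m _ hm => ?_
  rw [notMem_support_iff.1 hm, norm_zero]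

theorem nr3_add (p q : MvPolynomial (Fin 3) ℂ) : nr3 (p + q) ≤ nr3 p + nr3 q := by
  classical
  rw [nr3_eq (p := p + q) (T := p.support ∪ q.support) support_add,
    nr3_eq (p := p) (T := p.support ∪ q.support) Finset.subset_union_left,
    nr3_eq (p := q) (T := p.support ∪ q.support) Finset.subset_union_right,
    ← Finset.sum_add_distrib]
  refine Finset.sum_le_sum fun m _ => ?_
  rw [coeff_add]
  exact norm_add_le _ _

theorem nr3_smul (c : ℂ) (p : MvPolynomial (Fin 3) ℂ) : nr3 (c • p) = ‖c‖ * nr3 p := by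
  rw [nr3_eq (p := c • p) (T := p.support) support_smul]
  unfold nr3
  rw [Finset.mul_sum]
  refine Finset.sum_congr rfl fun m _ => ?_
  rw [coeff_smul, smul_eq_mul, norm_mul]

theorem nrm3_nonneg (P : VF 3) : 0 ≤ nrm3 P :=
  Finset.sum_nonneg fun _ _ => Finset.sum_nonneg fun _ _ => norm_nonneg _

theorem nrm3_zero : nrm3 0 = 0 := by
  unfold nrm3 nr3
  simp

theorem nrm3_add (P Q : VF 3) : nrm3 (P + Q) ≤ nrm3 P + nrm3 Q := by
  unfold nrm3
  rw [← Finset.sum_add_distrib]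
  exact Finset.sum_le_sum fun i _ => nr3_add _ _

theorem nrm3_smul (c : ℂ) (P : VF 3) : nrm3 (c • P) = ‖c‖ * nrm3 P := by
  unfold nrm3
  rw [Finset.mul_sum]
  exact Finset.sum_congr rfl fun i _ => nr3_smul _ _

theorem nrm3_sum {ι : Type} (s : Finset ι) (f : ι → VF 3) : nrm3 (∑ i ∈ s, f i) ≤ ∑ i ∈ s, nrm3 (f i) := by
  classical
  induction s using Finset.induction_on with
  | empty => rw [Finset.sum_empty, Finset.sum_empty, nrm3_zero]
  | insert a s ha ih =>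
    rw [Finset.sum_insert ha, Finset.sum_insert ha]
    exact (nrm3_add _ _).trans (by linarith)

theorem bound {N : ℕ} (f : (Fin N → ℂ) →ₗ[ℂ] VF 3) : ∃ c : ℝ, 0 ≤ c ∧ ∀ x, nrm3 (f x) ≤ c * ‖x‖ := by
  refine ⟨∑ i, nrm3 (f (fun j => if i = j then 1 else 0)), Finset.sum_nonneg fun _ _ => nrm3_nonneg _,
    fun x => ?_⟩
  rw [LinearMap.pi_apply_eq_sum_univ f x]
  refine (nrm3_sum _ _).trans ?_
  rw [Finset.sum_mul]
  refine Finset.sum_le_sum fun i _ => ?_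
  rw [nrm3_smul, mul_comm]
  exact mul_le_mul_of_nonneg_left (norm_le_pi_norm x i) (nrm3_nonneg _)

theorem tE_hom (j : Fin 3) : HomT 2 (tE j) := fun i => by
  have := (isHomogeneous_X ℂ j).mul (isHomogeneous_X ℂ i)
  exact this

theorem P0_hom : HomT 2 P0 := fun i => (tE_hom 0 i).add (tE_hom 2 i)

theorem br_P0 : br P0 (tE 1) = 0 := by
  funext i
  rw [br_apply, Fin.sum_univ_three]
  fin_cases i <;>
    (simp [P0, tE, pderiv_X, Derivation.leibniz]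
     try ring)

theorem s_DEG33 (h1 : S_LIN3) (h2 : S_OPEN) : S_DEG33 := by
  intro δ hδ R hR
  have f2 : FiniteDimensional ℂ (HomV 3 2) := fin_HomV 2
  have f3 : FiniteDimensional ℂ (HomV 3 3) := fin_HomV 3
  obtain ⟨N, eW⟩ : ∃ N : ℕ, Nonempty ((HomV 3 2 × HomV 3 2 × HomV 3 3) ≃ₗ[ℂ] (Fin N → ℂ)) :=
    ⟨_, ⟨(Module.finBasis ℂ (HomV 3 2 × HomV 3 2 × HomV 3 3)).equivFun⟩⟩
  obtain ⟨eW⟩ := eW
  obtain ⟨M, eV⟩ : ∃ M : ℕ, Nonempty (HomV 3 3 ≃ₗ[ℂ] (Fin M → ℂ)) :=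
    ⟨_, ⟨(Module.finBasis ℂ (HomV 3 3)).equivFun⟩⟩
  obtain ⟨eV⟩ := eV
  obtain ⟨g, hg⟩ := LinearMap.exists_extend (p := HomV 3 3) (eV : HomV 3 3 →ₗ[ℂ] (Fin M → ℂ))
  have hg' : ∀ v : HomV 3 3, g (v : VF 3) = eV v := fun v => by
    have := LinearMap.congr_fun hg v
    exact this
  -- the components
  obtain ⟨pA, hpA⟩ : ∃ pA : (Fin N → ℂ) →ₗ[ℂ] VF 3, ∀ x, pA x = ((eW.symm x).1 : VF 3) :=
    ⟨(HomV 3 2).subtype ∘ₗ LinearMap.fst ℂ (HomV 3 2) (HomV 3 2 × HomV 3 3) ∘ₗ eW.symm.toLinearMap, fun x => rfl⟩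
  obtain ⟨pB, hpB⟩ : ∃ pB : (Fin N → ℂ) →ₗ[ℂ] VF 3, ∀ x, pB x = ((eW.symm x).2.1 : VF 3) :=
    ⟨(HomV 3 2).subtype ∘ₗ LinearMap.fst ℂ (HomV 3 2) (HomV 3 3) ∘ₗ LinearMap.snd ℂ (HomV 3 2) (HomV 3 2 × HomV 3 3) ∘ₗ
      eW.symm.toLinearMap, fun x => rfl⟩
  obtain ⟨pE, hpE⟩ : ∃ pE : (Fin N → ℂ) →ₗ[ℂ] VF 3, ∀ x, pE x = ((eW.symm x).2.2 : VF 3) :=
    ⟨(HomV 3 3).subtype ∘ₗ LinearMap.snd ℂ (HomV 3 2) (HomV 3 3) ∘ₗ LinearMap.snd ℂ (HomV 3 2) (HomV 3 2 × HomV 3 3) ∘ₗ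
      eW.symm.toLinearMap, fun x => rfl⟩
  have hA2 : ∀ x, HomT 2 (pA x) := fun x => by rw [hpA]; exact mem_HomV.1 (eW.symm x).1.2
  have hB2 : ∀ x, HomT 2 (pB x) := fun x => by rw [hpB]; exact mem_HomV.1 (eW.symm x).2.1.2
  have hE3 : ∀ x, HomT 3 (pE x) := fun x => by rw [hpE]; exact mem_HomV.1 (eW.symm x).2.2.2
  obtain ⟨L0, hL0⟩ : ∃ L0 : (Fin N → ℂ) →ₗ[ℂ] VF 3, ∀ x, L0 x =
      br P0 (pB x) + br (pA x) (tE 1) + (pE x - act sg sg (pE x)) :=
    ⟨(brB P0) ∘ₗ pB + (brB.flip (tE 1)) ∘ₗ pA + (pE - (actL sg sg) ∘ₗ pE), fun x => rfl⟩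
  obtain ⟨Q, hQ⟩ : ∃ Q : (Fin N → ℂ) →ₗ[ℂ] (Fin N → ℂ) →ₗ[ℂ] (Fin M → ℂ), ∀ x y,
      Q x y = g (br (pA x) (pB y)) :=
    ⟨(brB.compl₁₂ pA pB).compr₂ g, fun x y => rfl⟩
  have hsurj : Function.Surjective (g ∘ₗ L0) := by
    intro y
    obtain ⟨A, A', E, hA, hA', hE, hw⟩ := h1 ((eV.symm y : HomV 3 3) : VF 3) (mem_HomV.1 (eV.symm y).2)
    refine ⟨eW (⟨A, mem_HomV.2 hA⟩, ⟨A', mem_HomV.2 hA'⟩, ⟨E, mem_HomV.2 hE⟩), ?_⟩
    rw [LinearMap.comp_apply, hL0, hpA, hpB, hpE, LinearEquiv.symm_apply_apply]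
    simp only
    rw [← hw, hg', LinearEquiv.apply_symm_apply]
  obtain ⟨c1, hc1, hb1⟩ := bound pA
  obtain ⟨c2, hc2, hb2⟩ := bound pB
  obtain ⟨c, hc, x, hx, hx2⟩ := h2 N M (g ∘ₗ L0) Q hsurj (δ / (c1 + c2 + 1)) (by positivity) (g R)
  refine ⟨c, hc, pA x, pB x, pE x, hA2 x, hB2 x, hE3 x, ?_, ?_, ?_⟩
  · refine lt_of_le_of_lt (hb1 x) ?_
    rw [lt_div_iff₀ (by positivity)] at hx
    nlinarith [norm_nonneg x]
  · refine lt_of_le_of_lt (hb2 x) ?_
    rw [lt_div_iff₀ (by positivity)] at hx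
    nlinarith [norm_nonneg x]
  · have e : br (P0 + pA x) (tE 1 + pB x) + (pE x - act sg sg (pE x)) = L0 x + br (pA x) (pB x) := by
      rw [br_add_left, br_add_right, br_add_right, br_P0, hL0]
      abel
    rw [e]
    have m1 : L0 x + br (pA x) (pB x) ∈ HomV 3 3 := by
      refine (HomV 3 3).add_mem ?_ (mem_HomV.2 (br_hom (hA2 x) (hB2 x)))
      rw [hL0]
      refine (HomV 3 3).add_mem ((HomV 3 3).add_mem (mem_HomV.2 (br_hom P0_hom (hB2 x)))
        (mem_HomV.2 (br_hom (hA2 x) (tE_hom 1)))) ((HomV 3 3).sub_mem (mem_HomV.2 (hE3 x)) ?_)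
      exact mem_HomV.2 (act_hom (hE3 x))
    have m2 : c • R ∈ HomV 3 3 := (HomV 3 3).smul_mem c (mem_HomV.2 hR)
    have h3 : g (L0 x + br (pA x) (pB x)) = g (c • R) := by
      rw [map_add, map_smul, ← hx2, hQ]
      rfl
    have h4 : eV ⟨_, m1⟩ = eV ⟨_, m2⟩ := by
      rw [← hg', ← hg']
      exact h3
    exact congrArg Subtype.val (eV.injective h4)

end Pool.Agent.L7h16.RV
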